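import Pool.Agent.Helper30.ML.Goals

/-!
# Project ML (MP_bf413e_co), packet RC: counting faces of a MacLane family
-/

set_option autoImplicit false

namespace Pool.Agent.Helper28.ML

open scoped Classical
open Finset
open Pool.Agent.Helper30.ML Pool.Agent.Helper94.KC

/-- the members of `eG G` have two elements -/
theorem card_eG {V : Type} [Fintype V] {G : SimpleGraph V} {e : Finset V} (he : e ∈ eG G) :
    e.card = 2 := by
  obtain ⟨-, u, v, h, rfl⟩ := Finset.mem_filter.1 he
  exact Finset.card_pair h.ne

/-- in an even set every edge `e` with end `a` is accompanied by another one -/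
theorem exists_other {V : Type} {z : Finset (Finset V)} (h : Even2 z) {e : Finset V} {a : V}
    (he : e ∈ z) (ha : a ∈ e) : ∃ e' ∈ z, a ∈ e' ∧ e' ≠ e := by
  by_contra hc
  push Not at hc
  have h1 : z.filter (fun e' => a ∈ e') = {e} := by
    ext e'
    rw [Finset.mem_filter, Finset.mem_singleton]
    constructor
    · rintro ⟨h1, h2⟩
      exact hc e' h1 h2
    · rintro rfl
      exact ⟨he, ha⟩
  have h2 := h a
  rw [h1, Finset.card_singleton] at h2
  exact absurd h2 (by decide)

/-- a nonempty even set of edges has at least three elements -/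
theorem three_le {V : Type} [Fintype V] {G : SimpleGraph V} {z : Finset (Finset V)}
    (hz : z ⊆ eG G) (he : Even2 z) (hn : z.Nonempty) : 3 ≤ z.card := by
  obtain ⟨e, hez⟩ := hn
  obtain ⟨a, b, hab, rfl⟩ := Finset.card_eq_two.1 (card_eG (hz hez))
  obtain ⟨e1, h1, ha1, hne1⟩ := exists_other he hez (a := a) (by simp)
  obtain ⟨e2, h2, hb2, hne2⟩ := exists_other he hez (a := b) (by simp)
  have h12 : e1 ≠ e2 := by
    rintro rfl
    apply hne1
    have hs : {a, b} ⊆ e1 := by
      intro x hx
      rcases Finset.mem_insert.1 hx with rfl | hx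
      · exact ha1
      · rw [Finset.mem_singleton.1 hx]; exact hb2
    exact (Finset.eq_of_subset_of_card_le hs
      (by rw [card_eG (hz h1), Finset.card_pair hab])).symm
  have hs : ({{a, b}, e1, e2} : Finset (Finset V)) ⊆ z := by
    intro x hx
    simp only [Finset.mem_insert, Finset.mem_singleton] at hx
    rcases hx with rfl | rfl | rfl
    · exact hez
    · exact h1
    · exact h2
  have hc : ({{a, b}, e1, e2} : Finset (Finset V)).card = 3 :=
    Finset.card_eq_three.2 ⟨_, _, _, hne1.symm, hne2.symm, h12, rfl⟩
  rw [← hc]
  exact Finset.card_le_card hs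

/-- double counting -/
theorem double_count {V : Type} {m : ℕ} (E : Finset (Finset V)) (f : Fin m → Finset (Finset V))
    (I : Finset (Fin m)) (p : Finset V → Prop) [DecidablePred p] (hf : ∀ i, f i ⊆ E) :
    ∑ i ∈ I, ((f i).filter p).card = ∑ e ∈ E.filter p, (I.filter (fun i => e ∈ f i)).card := by
  have h1 : ∀ i ∈ I, ((f i).filter p).card = ∑ e ∈ E.filter p, if e ∈ f i then 1 else 0 := by
    intro i _
    rw [← Finset.card_filter]
    congr 1
    ext e
    simp only [Finset.mem_filter]
    exact ⟨fun h => ⟨⟨hf i h.1, h.2⟩, h.1⟩, fun h => ⟨h.2, h.1.2⟩⟩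
  rw [Finset.sum_congr rfl h1, Finset.sum_comm]
  refine Finset.sum_congr rfl fun e _ => ?_
  rw [Finset.card_filter]

/-- **Packet RC** -/
theorem pRC : StmtRC := by
  intro V _ G m f I hM hI hind
  obtain ⟨S, hS⟩ : ∃ S : Finset (Finset V),
      S = (eG G).filter (fun e => Odd (I.filter (fun i => e ∈ f i)).card) := ⟨_, rfl⟩
  have hSe : Even2 S := by
    intro v
    have h1 := double_count (eG G) f I (fun e => v ∈ e) hM.sub
    have h2 : Even (∑ i ∈ I, ((f i).filter (fun e => v ∈ e)).card) :=
      Finset.even_sum _ fun i _ => hM.even i v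
    rw [h1, Finset.even_sum_iff_even_card_odd] at h2
    have h3 : S.filter (fun e => v ∈ e) = (((eG G).filter (fun e => v ∈ e)).filter
        (fun e => Odd (I.filter (fun i => e ∈ f i)).card)) := by
      rw [hS, Finset.filter_comm]
    rw [h3]
    exact h2
  have hSn : S.Nonempty := by
    by_contra hc
    rw [Finset.not_nonempty_iff_eq_empty] at hc
    have := hind I subset_rfl fun e => by
      by_cases he : e ∈ eG G
      · by_contra ho
        have : e ∈ S := by
          rw [hS, Finset.mem_filter]
          exact ⟨he, Nat.not_even_iff_odd.1 ho⟩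
        rw [hc] at this
        exact Finset.notMem_empty _ this
      · have h0 : I.filter (fun i => e ∈ f i) = ∅ :=
          Finset.filter_eq_empty_iff.2 fun i _ hi => he (hM.sub i hi)
        rw [h0]
        exact ⟨0, rfl⟩
    exact hI.ne_empty this
  have h3 : ∀ i ∈ I, 3 ≤ (f i).card := by
    intro i hi
    refine three_le (hM.sub i) (hM.even i) ?_
    by_contra hc
    rw [Finset.not_nonempty_iff_eq_empty] at hc
    have := hind {i} (Finset.singleton_subset_iff.2 hi) fun e => by
      have h0 : ({i} : Finset (Fin m)).filter (fun j => e ∈ f j) = ∅ := by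
        refine Finset.filter_eq_empty_iff.2 fun j hj he => ?_
        rw [Finset.mem_singleton.1 hj, hc] at he
        exact Finset.notMem_empty _ he
      rw [h0]
      exact ⟨0, rfl⟩
    exact Finset.singleton_ne_empty i this
  have hS3 : 3 ≤ S.card := three_le (by rw [hS]; exact Finset.filter_subset _ _) hSe hSn
  have hsum : ∑ i ∈ I, (f i).card + S.card ≤ 2 * (eG G).card := by
    have h1 := double_count (eG G) f I (fun _ => True) hM.sub
    simp only [Finset.filter_true] at h1
    rw [h1, hS, Finset.card_filter, ← Finset.sum_add_distrib]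
    calc ∑ e ∈ eG G, ((I.filter (fun i => e ∈ f i)).card +
          if Odd (I.filter (fun i => e ∈ f i)).card then 1 else 0)
        ≤ ∑ e ∈ eG G, 2 := by
          refine Finset.sum_le_sum fun e _ => ?_
          have h2 : (I.filter (fun i => e ∈ f i)).card ≤ 2 :=
            (Finset.card_le_card (Finset.filter_subset_filter _ (Finset.subset_univ _))).trans
              (hM.two e)
          split_ifs with ho
          · have : (I.filter (fun i => e ∈ f i)).card ≠ 2 := by
              intro h
              rw [h] at ho
              exact absurd ho (by decide)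
            omega
          · omega
      _ = 2 * (eG G).card := by rw [Finset.sum_const, smul_eq_mul, mul_comm]
  have h4 : I.card * 3 ≤ ∑ i ∈ I, (f i).card := by
    have := Finset.card_nsmul_le_sum I (fun i => (f i).card) 3 h3
    rwa [smul_eq_mul] at this
  omega

end Pool.Agent.Helper28.ML
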