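import Pool.Agent.Helper30.ML.Goals

/-!
# Project ML (MP_bf413e_co), packet T3: two pairs of equal colours around a vertex of degree 5
-/

set_option autoImplicit false

namespace Pool.Agent.Helper28.ML

open scoped Classical
open Finset
open Pool.Agent.Helper30.ML Pool.Agent.Helper94.KC

set_option maxRecDepth 4000 in
theorem fifth_colour : ∀ a b c e : Fin 5, ∃ d : Fin 5, d ≠ a ∧ d ≠ b ∧ d ≠ c ∧ d ≠ e := by decide

/-- **Packet T3** -/
theorem pT3 (hKB : StmtKB) : StmtT3 := by
  obtain ⟨-, -, -, -, hsw, hupd⟩ := hKB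
  intro V _ G v w hinj hN hcyc hX f hf h02 h13
  obtain ⟨a, ha⟩ : ∃ a, a = f (w 0) := ⟨_, rfl⟩
  obtain ⟨b, hb⟩ : ∃ b, b = f (w 1) := ⟨_, rfl⟩
  obtain ⟨c, hc⟩ : ∃ c, c = f (w 4) := ⟨_, rfl⟩
  obtain ⟨e, he⟩ : ∃ e, e = f v := ⟨_, rfl⟩
  have hvw : ∀ i, G.Adj v (w i) := fun i => (hN _).2 ⟨i, rfl⟩
  have hab : a ≠ b := by rw [ha, hb]; exact hf _ _ (hcyc 0)
  have hbc : b ≠ c := by rw [hb, h13, hc]; exact hf _ _ (hcyc 3)
  have hac : a ≠ c := by rw [ha, hc]; exact (hf _ _ (hcyc 4)).symm
  have hea : e ≠ a := by rw [he, ha]; exact hf _ _ (hvw 0)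
  have heb : e ≠ b := by rw [he, hb]; exact hf _ _ (hvw 1)
  have hec : e ≠ c := by rw [he, hc]; exact hf _ _ (hvw 4)
  obtain ⟨d, hda, hdb, hdc, hde⟩ := fifth_colour a b c e
  -- values of a switched colouring
  have sin : ∀ (F : V → Fin 5) (p q : Fin 5) (x y : V), InChain G F p q x y →
      sw G F p q x y = Equiv.swap p q (F y) := by
    intro F p q x y h
    unfold sw
    rw [if_pos h]
  have sout : ∀ (F : V → Fin 5) (p q : Fin 5) (x y : V), ¬ InChain G F p q x y →
      sw G F p q x y = F y := by
    intro F p q x y h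
    unfold sw
    rw [if_neg h]
  obtain ⟨hA1, hA2, hA3, hA4⟩ := hsw V G f a d (w 0) (Or.inl ha.symm)
  by_cases hA : InChain G f a d (w 0) (w 2)
  · -- the colour of `v` is changed to `d`
    obtain ⟨f1, hf1⟩ : ∃ f1, f1 = Function.update f v d := ⟨_, rfl⟩
    have hK1 : KEq G f f1 := by
      rw [hf1]
      refine hupd V G f d v hf fun y hy => ?_
      obtain ⟨i, rfl⟩ := (hN y).1 hy
      fin_cases i
      · show f (w 0) ≠ d
        rw [← ha]; exact hda.symm
      · show f (w 1) ≠ d
        rw [← hb]; exact hdb.symm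
      · show f (w 2) ≠ d
        rw [← h02, ← ha]; exact hda.symm
      · show f (w 3) ≠ d
        rw [← h13, ← hb]; exact hdb.symm
      · show f (w 4) ≠ d
        rw [← hc]; exact hdc.symm
    have hf1v : f1 v = d := by rw [hf1, Function.update_self]
    have hf1n : ∀ y, y ≠ v → f1 y = f y := fun y hy => by rw [hf1, Function.update_of_ne hy]
    have hf1w : ∀ i, f1 (w i) = f (w i) := fun i => hf1n _ (hvw i).ne'
    obtain ⟨hB1, hB2, hB3, hB4⟩ := hsw V G f1 b e (w 1) (Or.inl (by rw [hf1w, ← hb]))
    by_cases hB : InChain G f1 b e (w 1) (w 3)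
    · exfalso
      refine hX 0 {y | InChain G f a d (w 0) y} {y | InChain G f1 b e (w 1) y} ?_ ?_ ?_ hA3 hB3 hA4
        hA hB4 hB
      · intro h
        rcases hA2 v h with h | h
        · exact hea (he.trans h)
        · exact hde (h.symm.trans he.symm)
      · intro h
        rcases hB2 v h with h | h
        · exact hdb (hf1v.symm.trans h)
        · exact hde (hf1v.symm.trans h)
      · rw [Set.disjoint_left]
        intro y hyA hyB
        have h1 := hA2 y hyA
        have h2 := hB2 y hyB
        have hyv : y ≠ v := by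
          rintro rfl
          rcases h2 with h | h
          · exact hdb (hf1v.symm.trans h)
          · exact hde (hf1v.symm.trans h)
        rw [hf1n y hyv] at h2
        rcases h1 with h | h <;> rcases h2 with h' | h' <;> rw [h] at h'
        · exact hab h'
        · exact hea h'.symm
        · exact hdb h'
        · exact hde h'
    · have g1 : sw G f1 b e (w 1) (w 1) = e := by
        rw [sin _ _ _ _ _ hB4, hf1w, ← hb, Equiv.swap_apply_left]
      have g3 : sw G f1 b e (w 1) (w 3) = b := by
        rw [sout _ _ _ _ _ hB, hf1w, ← h13, ← hb]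
      have g0 : sw G f1 b e (w 1) (w 0) = a := by
        rw [sout, hf1w, ← ha]
        intro h
        rcases hB2 _ h with h | h <;> rw [hf1w, ← ha] at h
        · exact hab h
        · exact hea h.symm
      have g2 : sw G f1 b e (w 1) (w 2) = a := by
        rw [sout, hf1w, ← h02, ← ha]
        intro h
        rcases hB2 _ h with h | h <;> rw [hf1w, ← h02, ← ha] at h
        · exact hab h
        · exact hea h.symm
      have g4 : sw G f1 b e (w 1) (w 4) = c := by
        rw [sout, hf1w, ← hc]
        intro h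
        rcases hB2 _ h with h | h <;> rw [hf1w, ← hc] at h
        · exact hbc h.symm
        · exact hec h.symm
      refine ⟨sw G f1 b e (w 1), hK1.trans hB1, Or.inr ?_⟩
      rw [g0, g1, g2, g3, g4]
      exact ⟨rfl, heb, hab, hec, hac⟩
  · have g0 : sw G f a d (w 0) (w 0) = d := by
      rw [sin _ _ _ _ _ hA4, ← ha, Equiv.swap_apply_left]
    have g2 : sw G f a d (w 0) (w 2) = a := by
      rw [sout _ _ _ _ _ hA, ← h02, ← ha]
    have g1 : sw G f a d (w 0) (w 1) = b := by
      rw [sout, ← hb]
      intro h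
      rcases hA2 _ h with h | h <;> rw [← hb] at h
      · exact hab h.symm
      · exact hdb h.symm
    have g3 : sw G f a d (w 0) (w 3) = b := by
      rw [sout, ← h13, ← hb]
      intro h
      rcases hA2 _ h with h | h <;> rw [← h13, ← hb] at h
      · exact hab h.symm
      · exact hdb h.symm
    have g4 : sw G f a d (w 0) (w 4) = c := by
      rw [sout, ← hc]
      intro h
      rcases hA2 _ h with h | h <;> rw [← hc] at h
      · exact hac h.symm
      · exact hdc h.symm
    refine ⟨sw G f a d (w 0), hA1, Or.inl ?_⟩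
    rw [g0, g1, g2, g3, g4]
    exact ⟨hda, rfl, hdb, hbc, hac⟩

end Pool.Agent.Helper28.ML
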